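import Pool.Agent.W209.CF.Basic

/-! Project CF3, part PHZ: tokens whose slot is a centre of `X`. -/

namespace Pool.Agent.W912.CF3

open Finset Pool.Agent.W209.CF

/-- Colour lemma: values propagated along a partial function. -/
theorem colour {V : Type} (φ : V → Option V) (base : V → Fin 3) (hb : ∀ w, base w ≠ 0) :
    ∃ a : V → Fin 3, (∀ w, a w ≠ 0) ∧ (∀ w w', φ w = some w' → a w = a w') ∧
      ∀ w, φ w = none → a w = base w := by
  classical
  let step : V → V := fun w => (φ w).getD w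
  let R : V → V → Prop := fun w t => φ t = none ∧ ∃ n : ℕ, step^[n] w = t
  let aux : (V → Prop) → Fin 3 := fun p => if h : ∃ t, p t then base h.choose else 1
  have hstep : ∀ t, φ t = none → step t = t := by
    intro t ht
    simp only [step, ht, Option.getD_none]
  have hR : ∀ w, R (step w) = R w := by
    intro w
    funext t
    apply propext
    constructor
    · rintro ⟨h1, n, h2⟩
      exact ⟨h1, n + 1, h2⟩
    · rintro ⟨h1, n, h2⟩
      refine ⟨h1, n, ?_⟩
      rw [← Function.iterate_succ_apply, Function.iterate_succ_apply', h2, hstep t h1]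
  refine ⟨fun w => aux (R w), ?_, ?_, ?_⟩
  · intro w
    simp only [aux]
    split_ifs
    · exact hb _
    · decide
  · intro w w' hw
    have : step w = w' := by simp only [step, hw, Option.getD_some]
    show aux (R w) = aux (R w')
    rw [← this, hR]
  · intro w hw
    have h1 : ∃ t, R w t := ⟨w, hw, 0, rfl⟩
    show aux (R w) = base w
    simp only [aux, dif_pos h1]
    obtain ⟨-, n, h2⟩ := h1.choose_spec
    have h3 : step^[n] w = w := Function.iterate_fixed (hstep w hw) n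
    rw [h3] at h2
    rw [← h2]

theorem phZ : S_flip → S_phZ := by
  intro hflip V E _ _ _ _ inc h3 s D c P S hI hZ hP
  classical
  have hne : ∀ e, ∃ v, v ∈ inc e := fun e => Finset.card_pos.1 (by rw [h3 e]; norm_num)
  set PZ : Finset V := D.T.filter (fun w => ∃ x ∈ D.X, D.σ w ∈ inc x) with hPZ
  have mPZ : ∀ w, w ∈ PZ ↔ w ∈ D.T ∧ ∃ x ∈ D.X, D.σ w ∈ inc x := by
    intro w; rw [hPZ, Finset.mem_filter]
  have hσ0 : ∀ w ∈ D.T, dg inc s (D.σ w) ≠ 0 := by
    intro w hw
    rcases D.hslot w hw with h | ⟨h, -⟩ <;> omega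
  have hPZZ : ∀ w ∈ PZ, dg inc s (D.σ w) = 2 ∧ ∃ x ∈ D.X, D.σ w ∈ inc x := by
    intro w hw
    obtain ⟨hT, x, hx, hσx⟩ := (mPZ w).1 hw
    refine ⟨?_, x, hx, hσx⟩
    obtain ⟨a, a', z, h1, -, h2, h2', h4, -⟩ := D.hX x hx
    have h0 := hσ0 w hT
    rw [h1] at hσx
    simp only [mem_insert, mem_singleton] at hσx
    rcases hσx with h | h | h
    · rw [h] at h0; exact absurd h2 h0
    · rw [h] at h0; exact absurd h2' h0
    · rw [h]; exact h4
  have hPZT : ∀ w ∈ PZ, w ∈ D.T := fun w hw => ((mPZ w).1 hw).1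
  have hPZP : ∀ w ∈ PZ, w ∉ P := by
    intro w hw hwP
    have h1 := ((hP w).1 hwP).2
    have h2 := (hPZZ w hw).1
    omega
  have hT0 : ∀ w ∈ PZ, ∀ e, w ∈ inc e → c e = 0 := by
    intro w hw
    exact dg_eq_zero.1 (hI.zero w (Or.inl ⟨hPZT w hw, hPZP w hw⟩))
  have mg : ∀ w ∈ D.T, ∀ v, v ∈ inc (D.g w) ↔ v = w ∨ v = D.σ w ∨ v = D.τ w := by
    intro w hw v
    rw [(D.hg w hw).1]
    simp only [mem_insert, mem_singleton]
  have hcg : ∀ w ∈ PZ, c (D.g w) = 0 := fun w hw =>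
    hT0 w hw _ ((mg w (hPZT w hw) w).2 (Or.inl rfl))
  have hTVK : ∀ w ∈ D.T, ∀ u ∈ D.U, w ∉ VK inc (D.K u) := by
    intro w hw u hu h
    have hwu : w ≠ u := by
      rintro rfl
      exact Finset.disjoint_left.1 D.hUT hu hw
    exact D.hKh u hu w h hwu (D.hT0 w hw)
  -- facts on the centres
  have hex : ∀ z, ∃ e, (dg inc s z = 2 ∧ ∃ x ∈ D.X, z ∈ inc x) → c e = 2 ∧ z ∈ inc e ∧
      ∀ v ∈ inc e, v ≠ z → cnt inc c 1 v = 0 ∧ cnt inc c 2 v = 1 := by
    intro z
    by_cases h : dg inc s z = 2 ∧ ∃ x ∈ D.X, z ∈ inc x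
    · obtain ⟨-, e, he⟩ := hZ z h.1 h.2
      exact ⟨e, fun _ => he⟩
    · exact ⟨D.g z, fun h' => absurd h' h⟩
  choose e2 he2 using hex
  have hZVK : ∀ z, (dg inc s z = 2 ∧ ∃ x ∈ D.X, z ∈ inc x) → ∀ u ∈ D.U, z ∉ VK inc (D.K u) := by
    rintro z ⟨-, x, hx, hzx⟩ u hu h
    exact Finset.disjoint_left.1 (D.hKX u hu x hx) hzx h
  have hZ2 : ∀ z, (dg inc s z = 2 ∧ ∃ x ∈ D.X, z ∈ inc x) →
      2 ≤ cnt inc c 1 z ∧ cnt inc c 2 z = 1 := by
    intro z hz
    have h1 := (hZ z hz.1 hz.2).1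
    refine ⟨h1, ?_⟩
    have hg : Good inc c z := by
      apply hI.good
      rintro (⟨hzT, -⟩ | ⟨u, hu, -, hzu⟩)
      · have := D.hT0 z hzT
        omega
      · exact hZVK z hz u hu hzu
    rcases hg with h | h
    · omega
    · exact h
  have hC : ∀ z z', (dg inc s z = 2 ∧ ∃ x ∈ D.X, z ∈ inc x) →
      (dg inc s z' = 2 ∧ ∃ x ∈ D.X, z' ∈ inc x) → ∀ v, v ∈ inc (e2 z) → v ∈ inc (e2 z') →
      z = z' := by
    intro z z' hz hz' v hv hv'
    by_contra hne'
    have key : ∀ z z', (dg inc s z = 2 ∧ ∃ x ∈ D.X, z ∈ inc x) →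
      (dg inc s z' = 2 ∧ ∃ x ∈ D.X, z' ∈ inc x) → z ≠ z' → z ∉ inc (e2 z') := by
      intro z z' hz hz' hne'' h
      have h1 := ((he2 z' hz').2.2 z h hne'').1
      have h2 := (hZ2 z hz).1
      omega
    have hvz : v ≠ z := by
      rintro rfl
      exact key _ _ hz hz' hne' hv'
    have h4 := ((he2 z hz).2.2 v hv hvz).2
    have h5 : e2 z = e2 z' := cnt_le_one_unique (le_of_eq h4) hv (he2 z hz).1 hv' (he2 z' hz').1
    apply key z z' hz hz' hne'
    rw [← h5]
    exact (he2 z hz).2.1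
  -- hit cycles
  set H : Finset V := D.U.filter (fun u => u ∉ S ∧ ∃ w ∈ PZ, D.τ w ∈ VK inc (D.K u)) with hH
  have mH : ∀ u, u ∈ H ↔ u ∈ D.U ∧ u ∉ S ∧ ∃ w ∈ PZ, D.τ w ∈ VK inc (D.K u) := by
    intro u; rw [hH, Finset.mem_filter]
  have hdex : ∀ u, ∃ w, u ∈ H → w ∈ PZ ∧ D.τ w ∈ VK inc (D.K u) := by
    intro u
    by_cases h : u ∈ H
    · obtain ⟨-, -, w, hw, hw'⟩ := (mH u).1 h
      exact ⟨w, fun _ => ⟨hw, hw'⟩⟩
    · exact ⟨u, fun h' => absurd h' h⟩
  choose d hd using hdex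
  have hkd2 : ∀ w ∈ PZ, ∀ u ∈ D.U, D.τ w ∈ VK inc (D.K u) → kd inc (D.K u) (D.τ w) = 2 := by
    intro w hw u hu h
    exact D.hcyc w (hPZT w hw) u hu (D.τ w)
      ((mg w (hPZT w hw) _).2 (Or.inr (Or.inr rfl))) h
  have hFex : ∀ u, ∃ F : E → Fin 3, u ∈ H → (∀ e, F e ≠ 0 → e ∈ D.K u) ∧
      cnt inc F 2 (D.τ (d u)) = 0 ∧
      (∀ v, v ≠ D.τ (d u) → kd inc (D.K u) v = 2 → cnt inc F 1 v = 1 ∧ cnt inc F 2 v = 1) ∧
      (∀ v, kd inc (D.K u) v = 1 → cnt inc F 1 v + cnt inc F 2 v = 1) := by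
    intro u
    by_cases h : u ∈ H
    · have hu := ((mH u).1 h).1
      obtain ⟨F, h1, -, h4, h5, h6⟩ := hflip V E inc h3 (D.K u) (D.hKodd u hu) (D.τ (d u))
        (hkd2 _ (hd u h).1 u hu (hd u h).2) 1 (by decide)
      exact ⟨F, fun _ => ⟨h1, h4, h5, h6⟩⟩
    · exact ⟨fun _ => 0, fun h' => absurd h' h⟩
  choose Fl hFl using hFex
  have hVKu : ∀ u ∈ D.U, ∀ u' ∈ D.U, ∀ v, v ∈ VK inc (D.K u) → v ∈ VK inc (D.K u') → u = u' := by
    intro u hu u' hu' v hv hv'
    by_contra h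
    exact Finset.disjoint_left.1 (D.hKd u hu u' hu' h) hv hv'
  have hKc : ∀ u ∈ H, ∀ v ∈ VK inc (D.K u), ∀ e, v ∈ inc e → c e = 0 := by
    intro u hu v hv
    obtain ⟨h1, h2, -⟩ := (mH u).1 hu
    exact dg_eq_zero.1 (hI.zero v (Or.inr ⟨u, h1, h2, hv⟩))
  -- colours
  let base : V → Fin 3 := fun w =>
    if ∃ u ∈ D.U, u ∉ S ∧ D.τ w ∈ VK inc (D.K u) then
      (if ∃ u ∈ H, w = d u ∧ D.τ w ∈ VK inc (D.K u) then 2 else 1)
    else (if cnt inc c 1 (D.τ w) = 1 then 2 else 1)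
  let φ : V → Option V := fun w =>
    if h : ∃ w', w' ∈ PZ ∧ D.τ w ∈ inc (e2 (D.σ w')) ∧ D.τ w ≠ D.σ w' then some h.choose else none
  have hbase : ∀ w, base w ≠ 0 := by
    intro w
    simp only [base]
    split_ifs <;> decide
  obtain ⟨a, ha0, hasome, hanone⟩ := colour φ base hbase
  -- (a1)
  have a1 : ∀ w ∈ PZ, (dg inc s (D.τ w) = 2 ∧ ∃ x ∈ D.X, D.τ w ∈ inc x) → a w = 1 := by
    intro w hw hz
    have hφ : φ w = none := by
      simp only [φ]
      rw [dif_neg]
      rintro ⟨w', hw', h1, h2⟩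
      have h4 := ((he2 _ (hPZZ w' hw')).2.2 _ h1 h2).1
      have h5 := (hZ2 _ hz).1
      omega
    rw [hanone w hφ]
    simp only [base]
    rw [if_neg, if_neg]
    · have h5 := (hZ2 _ hz).1
      omega
    · rintro ⟨u, hu, -, h⟩
      exact hZVK _ hz u hu h
  -- (a2)
  have a2 : ∀ w, ∀ w' ∈ PZ, D.τ w ∈ inc (e2 (D.σ w')) → D.τ w ≠ D.σ w' → a w = a w' := by
    intro w w' hw' h1 h2
    have hex : ∃ w', w' ∈ PZ ∧ D.τ w ∈ inc (e2 (D.σ w')) ∧ D.τ w ≠ D.σ w' := ⟨w', hw', h1, h2⟩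
    have hch := hex.choose_spec
    have hφ : φ w = some hex.choose := by
      simp only [φ]
      rw [dif_pos hex]
    rw [hasome w _ hφ]
    have h4 := hC _ _ (hPZZ _ hch.1) (hPZZ w' hw') _ hch.2.1 h1
    rw [D.hσ _ (hPZT _ hch.1) w' (hPZT w' hw') h4]
  -- (a3)
  have a3 : ∀ w ∈ PZ, ∀ u ∈ D.U, u ∉ S → D.τ w ∈ VK inc (D.K u) →
      u ∈ H ∧ (a w = 2 ↔ w = d u) := by
    intro w hw u hu huS h
    have huH : u ∈ H := (mH u).2 ⟨hu, huS, w, hw, h⟩
    refine ⟨huH, ?_⟩
    have hφ : φ w = none := by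
      simp only [φ]
      rw [dif_neg]
      rintro ⟨w', hw', h1, h2⟩
      have h4 := (he2 _ (hPZZ w' hw')).1
      rw [hKc u huH _ h _ h1] at h4
      exact absurd h4 (by decide)
    rw [hanone w hφ]
    simp only [base]
    rw [if_pos ⟨u, hu, huS, h⟩]
    constructor
    · intro h1
      by_cases h2 : ∃ u ∈ H, w = d u ∧ D.τ w ∈ VK inc (D.K u)
      · obtain ⟨u', hu', h4, h5⟩ := h2
        rw [hVKu u hu u' ((mH u').1 hu').1 _ h h5]
        exact h4
      · rw [if_neg h2] at h1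
        exact absurd h1 (by decide)
    · intro h1
      rw [if_pos ⟨u, huH, h1, h⟩]
  -- (a4)
  have a4 : ∀ w, (¬ ∃ w', w' ∈ PZ ∧ D.τ w ∈ inc (e2 (D.σ w')) ∧ D.τ w ≠ D.σ w') →
      (¬ ∃ u ∈ D.U, u ∉ S ∧ D.τ w ∈ VK inc (D.K u)) →
      a w = if cnt inc c 1 (D.τ w) = 1 then 2 else 1 := by
    intro w h1 h2
    have hφ : φ w = none := by
      simp only [φ]
      rw [dif_neg h1]
    rw [hanone w hφ]
    simp only [base]
    rw [if_neg h2]
  -- the new colouring
  let c' : E → Fin 3 := fun e =>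
    if h : ∃ w, w ∈ PZ ∧ e = D.g w then a h.choose
    else if h : ∃ w, w ∈ PZ ∧ e = e2 (D.σ w) then opp (a h.choose)
    else if h : ∃ u, u ∈ H ∧ Fl u e ≠ 0 then Fl h.choose e
    else c e
  have ginj : ∀ w ∈ PZ, ∀ w' ∈ PZ, D.g w = D.g w' → w = w' := by
    intro w hw w' hw' h
    have h1 : w ∈ inc (D.g w') := by rw [← h]; exact (mg w (hPZT w hw) w).2 (Or.inl rfl)
    rcases (mg w' (hPZT w' hw') w).1 h1 with h2 | h2 | h2
    · exact h2
    · exact absurd (D.hT0 w (hPZT w hw)) (by rw [h2]; exact hσ0 w' (hPZT w' hw'))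
    · exact absurd (hPZT w hw) (by rw [h2]; exact D.hτ w' (hPZT w' hw'))
  have hne1 : ∀ w ∈ PZ, ∀ w' ∈ PZ, e2 (D.σ w) ≠ D.g w' := by
    intro w hw w' hw' h
    have h1 := (he2 _ (hPZZ w hw)).1
    rw [h, hcg w' hw'] at h1
    exact absurd h1 (by decide)
  have v1 : ∀ w ∈ PZ, c' (D.g w) = a w := by
    intro w hw
    have hex : ∃ w', w' ∈ PZ ∧ D.g w = D.g w' := ⟨w, hw, rfl⟩
    simp only [c']
    rw [dif_pos hex]
    have := hex.choose_spec
    rw [← ginj w hw _ this.1 this.2]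
  have v2 : ∀ w ∈ PZ, c' (e2 (D.σ w)) = opp (a w) := by
    intro w hw
    have hex0 : ¬ ∃ w', w' ∈ PZ ∧ e2 (D.σ w) = D.g w' := by
      rintro ⟨w', hw', h⟩
      exact hne1 w hw w' hw' h
    have hex : ∃ w', w' ∈ PZ ∧ e2 (D.σ w) = e2 (D.σ w') := ⟨w, hw, rfl⟩
    simp only [c']
    rw [dif_neg hex0, dif_pos hex]
    have hch := hex.choose_spec
    have h1 : D.σ w = D.σ hex.choose := by
      apply hC _ _ (hPZZ w hw) (hPZZ _ hch.1) (D.σ w) (he2 _ (hPZZ w hw)).2.1
      rw [← hch.2]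
      exact (he2 _ (hPZZ w hw)).2.1
    rw [← D.hσ _ (hPZT w hw) _ (hPZT _ hch.1) h1]
  have v3 : ∀ u ∈ H, ∀ e, Fl u e ≠ 0 → c' e = Fl u e := by
    intro u hu e he
    have hKu : e ∈ D.K u := (hFl u hu).1 e he
    have hU := ((mH u).1 hu).1
    have hex0 : ¬ ∃ w', w' ∈ PZ ∧ e = D.g w' := by
      rintro ⟨w', hw', rfl⟩
      exact hTVK w' (hPZT w' hw') u hU
        (mem_VK.2 ⟨_, hKu, (mg w' (hPZT w' hw') w').2 (Or.inl rfl)⟩)
    have hex1 : ¬ ∃ w', w' ∈ PZ ∧ e = e2 (D.σ w') := by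
      rintro ⟨w', hw', rfl⟩
      exact hZVK _ (hPZZ w' hw') u hU (mem_VK.2 ⟨_, hKu, (he2 _ (hPZZ w' hw')).2.1⟩)
    have hex : ∃ u, u ∈ H ∧ Fl u e ≠ 0 := ⟨u, hu, he⟩
    simp only [c']
    rw [dif_neg hex0, dif_neg hex1, dif_pos hex]
    have hch := hex.choose_spec
    obtain ⟨v, hv⟩ := hne e
    have h4 := hVKu u hU _ ((mH _).1 hch.1).1 v (mem_VK.2 ⟨e, hKu, hv⟩)
      (mem_VK.2 ⟨e, (hFl _ hch.1).1 e hch.2, hv⟩)
    rw [← h4]
  have v4 : ∀ e, (¬ ∃ w, w ∈ PZ ∧ e = D.g w) → (¬ ∃ w, w ∈ PZ ∧ e = e2 (D.σ w)) →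
      (¬ ∃ u, u ∈ H ∧ Fl u e ≠ 0) → c' e = c e := by
    intro e h1 h2 h4
    simp only [c']
    rw [dif_neg h1, dif_neg h2, dif_neg h4]
  have vinv : ∀ e i, c' e = i → i ≠ 0 → (∃ w ∈ PZ, e = D.g w ∧ a w = i) ∨
      (∃ w ∈ PZ, e = e2 (D.σ w) ∧ opp (a w) = i) ∨ (∃ u ∈ H, Fl u e = i) ∨
      (c e = i ∧ ∀ w ∈ PZ, e ≠ e2 (D.σ w)) := by
    intro e i hi h0
    by_cases h1 : ∃ w, w ∈ PZ ∧ e = D.g w
    · obtain ⟨w, hw, rfl⟩ := h1
      rw [v1 w hw] at hi
      exact Or.inl ⟨w, hw, rfl, hi⟩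
    by_cases h2 : ∃ w, w ∈ PZ ∧ e = e2 (D.σ w)
    · obtain ⟨w, hw, rfl⟩ := h2
      rw [v2 w hw] at hi
      exact Or.inr (Or.inl ⟨w, hw, rfl, hi⟩)
    by_cases h4 : ∃ u, u ∈ H ∧ Fl u e ≠ 0
    · obtain ⟨u, hu, h5⟩ := h4
      rw [v3 u hu e h5] at hi
      exact Or.inr (Or.inr (Or.inl ⟨u, hu, hi⟩))
    · rw [v4 e h1 h2 h4] at hi
      refine Or.inr (Or.inr (Or.inr ⟨hi, ?_⟩))
      intro w hw h
      exact h2 ⟨w, hw, h⟩
  -- tokens at a vertex
  have tok : ∀ v, v ∉ D.T → (¬ ∃ w ∈ PZ, v = D.σ w) → ∀ w ∈ PZ, v ∈ inc (D.g w) → v = D.τ w := by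
    intro v h1 h2 w hw h
    rcases (mg w (hPZT w hw) v).1 h with h4 | h4 | h4
    · exact absurd (hPZT w hw) (by rw [← h4]; exact h1)
    · exact absurd ⟨w, hw, h4⟩ h2
    · exact h4
  have good_of : ∀ v i, i ≠ 0 → cnt inc c' i v = 1 → Good inc c' v := by
    intro v i hi h
    rcases eq_one_or_two hi with rfl | rfl
    · exact Or.inl h
    · exact Or.inr h
  -- slots not in X are not hit
  have hnothit : ∀ y, dg inc s y = 2 → (¬ ∃ x ∈ D.X, y ∈ inc x) → ∀ w ∈ PZ, D.τ w ≠ y := by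
    intro y h1 h2 w hw h
    have h4 := D.hord w (hPZT w hw) (by rw [h]; omega)
    have h5 := D.hordZ (D.σ w) y (hPZZ w hw).1 h1 (hPZZ w hw).2 h2
    rw [h] at h4
    omega
  refine ⟨c', P ∪ PZ, S ∪ H, ⟨?_, ?_, ?_, ?_, ?_⟩, ?_⟩
  · exact Finset.union_subset hI.hP (Finset.filter_subset _ _)
  · exact Finset.union_subset hI.hS (Finset.filter_subset _ _)
  · -- good
    intro v hv
    by_cases t1 : v ∈ PZ
    · -- type 1
      apply good_of v (a v) (ha0 v)
      rw [cnt_eq_one]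
      refine ⟨D.g v, (mg v (hPZT v t1) v).2 (Or.inl rfl), v1 v t1, ?_⟩
      intro e' he' hce'
      rcases vinv e' (a v) hce' (ha0 v) with ⟨w, hw, h1, -⟩ | ⟨w, hw, h1, -⟩ | ⟨u, hu, h1⟩ | ⟨h1, -⟩
      · subst h1
        rcases (mg w (hPZT w hw) v).1 he' with h2 | h2 | h2
        · rw [h2]
        · exact absurd (D.hT0 v (hPZT v t1)) (by rw [h2]; exact hσ0 w (hPZT w hw))
        · exact absurd (hPZT v t1) (by rw [h2]; exact D.hτ w (hPZT w hw))
      · subst h1
        have h4 := (he2 _ (hPZZ w hw)).1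
        rw [hT0 v t1 _ he'] at h4
        exact absurd h4 (by decide)
      · exact absurd (mem_VK.2 ⟨e', (hFl u hu).1 e' (by rw [h1]; exact ha0 v), he'⟩)
          (hTVK v (hPZT v t1) u ((mH u).1 hu).1)
      · rw [hT0 v t1 _ he'] at h1
        exact absurd h1.symm (ha0 v)
    have hvT : v ∈ D.T → v ∈ P := by
      intro h
      by_contra h'
      exact hv (Or.inl ⟨h, by rw [Finset.mem_union]; tauto⟩)
    by_cases t2 : dg inc s v = 2 ∧ ∃ x ∈ D.X, v ∈ inc x
    · -- type 2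
      have hvT' : v ∉ D.T := by
        intro h
        have := D.hT0 v h
        omega
      have hv2 := hZ2 v t2
      right
      by_cases hs : ∃ w ∈ PZ, v = D.σ w
      · obtain ⟨w, hw, hvw⟩ := hs
        have common : ∀ e', v ∈ inc e' → c' e' = 2 →
            (e' = D.g w ∧ a w = 2) ∨ (e' = e2 v ∧ a w = 1) := by
          intro e' he' hce'
          rcases vinv e' 2 hce' (by decide) with
            ⟨w', hw', h1, h2⟩ | ⟨w', hw', h1, h2⟩ | ⟨u, hu, h1⟩ | ⟨h1, h2⟩
          · subst h1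
            rcases (mg w' (hPZT w' hw') v).1 he' with h4 | h4 | h4
            · exact absurd (hPZT w' hw') (by rw [← h4]; exact hvT')
            · have h5 : w' = w := D.hσ _ (hPZT w' hw') _ (hPZT w hw) (by rw [← h4, hvw])
              subst h5
              exact Or.inl ⟨rfl, h2⟩
            · rw [a1 w' hw' (by rw [← h4]; exact t2)] at h2
              exact absurd h2 (by decide)
          · subst h1
            have h4 : v = D.σ w' := hC _ _ t2 (hPZZ w' hw') v (he2 v t2).2.1 he'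
            have h5 : w' = w := D.hσ _ (hPZT w' hw') _ (hPZT w hw) (by rw [← h4, hvw])
            subst h5
            right
            refine ⟨by rw [h4], ?_⟩
            rcases eq_one_or_two (ha0 w') with h6 | h6
            · exact h6
            · rw [h6, opp_two] at h2
              exact absurd h2 (by decide)
          · exact absurd (mem_VK.2 ⟨e', (hFl u hu).1 e' (by rw [h1]; decide), he'⟩)
              (hZVK v t2 u ((mH u).1 hu).1)
          · exfalso
            apply h2 w hw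
            rw [← hvw]
            exact cnt_le_one_unique (le_of_eq hv2.2) he' h1 (he2 v t2).2.1 (he2 v t2).1
        rw [cnt_eq_one]
        rcases eq_one_or_two (ha0 w) with h6 | h6
        · refine ⟨e2 v, (he2 v t2).2.1, ?_, ?_⟩
          · rw [hvw, v2 w hw, h6, opp_one]
          · intro e' he' hce'
            rcases common e' he' hce' with ⟨-, h7⟩ | ⟨h7, -⟩
            · rw [h6] at h7
              exact absurd h7 (by decide)
            · exact h7
        · refine ⟨D.g w, (mg w (hPZT w hw) v).2 (Or.inr (Or.inl hvw)), ?_, ?_⟩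
          · rw [v1 w hw, h6]
          · intro e' he' hce'
            rcases common e' he' hce' with ⟨h7, -⟩ | ⟨-, h7⟩
            · exact h7
            · rw [h6] at h7
              exact absurd h7 (by decide)
      · rw [cnt_eq_one]
        refine ⟨e2 v, (he2 v t2).2.1, ?_, ?_⟩
        · rw [v4, (he2 v t2).1]
          · rintro ⟨w, hw, h⟩
            have h1 := (he2 v t2).1
            rw [h, hcg w hw] at h1
            exact absurd h1 (by decide)
          · rintro ⟨w, hw, h⟩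
            apply hs
            refine ⟨w, hw, hC _ _ t2 (hPZZ w hw) v (he2 v t2).2.1 ?_⟩
            rw [← h]
            exact (he2 v t2).2.1
          · rintro ⟨u, hu, h⟩
            exact absurd (mem_VK.2 ⟨_, (hFl u hu).1 _ h, (he2 v t2).2.1⟩)
              (hZVK v t2 u ((mH u).1 hu).1)
        · intro e' he' hce'
          rcases vinv e' 2 hce' (by decide) with
            ⟨w', hw', h1, h2⟩ | ⟨w', hw', h1, h2⟩ | ⟨u, hu, h1⟩ | ⟨h1, h2⟩
          · subst h1
            have h4 := tok v hvT' hs w' hw' he'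
            rw [a1 w' hw' (by rw [← h4]; exact t2)] at h2
            exact absurd h2 (by decide)
          · subst h1
            exact absurd ⟨w', hw', hC _ _ t2 (hPZZ w' hw') v (he2 v t2).2.1 he'⟩ hs
          · exact absurd (mem_VK.2 ⟨e', (hFl u hu).1 e' (by rw [h1]; decide), he'⟩)
              (hZVK v t2 u ((mH u).1 hu).1)
          · exact cnt_le_one_unique (le_of_eq hv2.2) he' h1 (he2 v t2).2.1 (he2 v t2).1
    have hnσ : ¬ ∃ w ∈ PZ, v = D.σ w := by
      rintro ⟨w, hw, h⟩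
      apply t2
      rw [h]
      exact hPZZ w hw
    by_cases t3 : ∃ w ∈ PZ, v ∈ inc (e2 (D.σ w))
    · -- type 3
      obtain ⟨w, hw, hvw⟩ := t3
      have hvσ : v ≠ D.σ w := fun h => hnσ ⟨w, hw, h⟩
      obtain ⟨k1, k2⟩ := (he2 _ (hPZZ w hw)).2.2 v hvw hvσ
      have hvc : c (e2 (D.σ w)) = 2 := (he2 _ (hPZZ w hw)).1
      have hi0 : opp (a w) ≠ 0 := opp_ne_zero (ha0 w)
      apply good_of v (opp (a w)) hi0
      rw [cnt_eq_one]
      refine ⟨e2 (D.σ w), hvw, v2 w hw, ?_⟩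
      intro e' he' hce'
      rcases vinv e' _ hce' hi0 with
        ⟨w', hw', h1, h2⟩ | ⟨w', hw', h1, h2⟩ | ⟨u, hu, h1⟩ | ⟨h1, h2⟩
      · subst h1
        rcases (mg w' (hPZT w' hw') v).1 he' with h4 | h4 | h4
        · rw [h4] at t1
          exact absurd hw' t1
        · exact absurd ⟨w', hw', h4⟩ hnσ
        · have h5 := a2 w' w hw (by rw [← h4]; exact hvw) (by rw [← h4]; exact hvσ)
          rw [h5] at h2
          exact absurd h2.symm (opp_ne_self (ha0 w))
      · subst h1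
        rw [hC _ _ (hPZZ w' hw') (hPZZ w hw) v he' hvw]
      · have h4 := hKc u hu v (mem_VK.2 ⟨e', (hFl u hu).1 e' (by rw [h1]; exact hi0), he'⟩)
          _ hvw
        rw [hvc] at h4
        exact absurd h4 (by decide)
      · exfalso
        rcases eq_one_or_two hi0 with h4 | h4
        · rw [h4] at h1
          exact cnt_eq_zero.1 k1 e' he' h1
        · rw [h4] at h1
          exact h2 w hw (cnt_le_one_unique (le_of_eq k2) he' h1 hvw hvc)
    by_cases t4 : ∃ u ∈ H, v ∈ VK inc (D.K u)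
    · -- type 4
      obtain ⟨u, hu, hvu⟩ := t4
      have hU := ((mH u).1 hu).1
      have hUS := ((mH u).1 hu).2.1
      have hvT' : v ∉ D.T := fun h => hTVK v h u hU hvu
      obtain ⟨f1, f2, f3, f4⟩ := hFl u hu
      -- generic inversion
      have ginv : ∀ i, i ≠ 0 → ∀ e', v ∈ inc e' → c' e' = i →
          (∃ w ∈ PZ, e' = D.g w ∧ a w = i ∧ v = D.τ w) ∨ Fl u e' = i := by
        intro i hi e' he' hce'
        rcases vinv e' i hce' hi with
          ⟨w', hw', h1, h2⟩ | ⟨w', hw', h1, h2⟩ | ⟨u', hu', h1⟩ | ⟨h1, h2⟩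
        · subst h1
          exact Or.inl ⟨w', hw', rfl, h2, tok v hvT' hnσ w' hw' he'⟩
        · subst h1
          exact absurd ⟨w', hw', he'⟩ t3
        · have h4 : u = u' := hVKu u hU u' ((mH u').1 hu').1 v hvu
            (mem_VK.2 ⟨e', (hFl u' hu').1 e' (by rw [h1]; exact hi), he'⟩)
          rw [h4]
          exact Or.inr h1
        · rw [hKc u hu v hvu e' he'] at h1
          exact absurd h1.symm hi
      have hkd := (D.hKodd u hU).kd2 v
      have hkp := kd_pos.2 hvu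
      by_cases hx : v = D.τ (d u)
      · -- the special vertex
        right
        rw [cnt_eq_one]
        have hdu := hd u hu
        have ha2 : a (d u) = 2 := ((a3 (d u) hdu.1 u hU hUS hdu.2).2).2 rfl
        refine ⟨D.g (d u), (mg _ (hPZT _ hdu.1) v).2 (Or.inr (Or.inr hx)), ?_, ?_⟩
        · rw [v1 _ hdu.1, ha2]
        · intro e' he' hce'
          rcases ginv 2 (by decide) e' he' hce' with ⟨w, hw, h1, h2, h4⟩ | h1
          · have h5 := ((a3 w hw u hU hUS (by rw [← h4]; exact hvu)).2).1 h2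
            rw [h1, h5]
          · rw [hx] at he'
            exact absurd h1 (cnt_eq_zero.1 f2 e' he')
      · by_cases hk : kd inc (D.K u) v = 2
        · right
          obtain ⟨e, h1, h2, h4⟩ := cnt_eq_one.1 (f3 v hx hk).2
          rw [cnt_eq_one]
          refine ⟨e, h1, ?_, ?_⟩
          · rw [v3 u hu e (by rw [h2]; decide), h2]
          · intro e' he' hce'
            rcases ginv 2 (by decide) e' he' hce' with ⟨w, hw, h5, h6, h7⟩ | h5
            · have h8 := ((a3 w hw u hU hUS (by rw [← h7]; exact hvu)).2).1 h6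
              rw [h8] at h7
              exact absurd h7 hx
            · exact h4 e' he' h5
        · have hk1 : kd inc (D.K u) v = 1 := by omega
          have hsum := f4 v hk1
          have hex : ∃ i : Fin 3, i ≠ 0 ∧ cnt inc (Fl u) i v = 1 := by
            rcases Nat.eq_zero_or_pos (cnt inc (Fl u) 1 v) with h | h
            · exact ⟨2, by decide, by omega⟩
            · exact ⟨1, by decide, by omega⟩
          obtain ⟨i, hi, hci⟩ := hex
          apply good_of v i hi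
          obtain ⟨e, h1, h2, h4⟩ := cnt_eq_one.1 hci
          rw [cnt_eq_one]
          refine ⟨e, h1, ?_, ?_⟩
          · rw [v3 u hu e (by rw [h2]; exact hi), h2]
          · intro e' he' hce'
            rcases ginv i hi e' he' hce' with ⟨w, hw, h5, h6, h7⟩ | h5
            · have h8 := hkd2 w hw u hU (by rw [← h7]; exact hvu)
              rw [← h7] at h8
              exact absurd h8 hk
            · exact h4 e' he' h5
    · -- type 6
      have hnb : ¬ bad D P S v := by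
        rintro (⟨h1, h2⟩ | ⟨u, hu, huS, h⟩)
        · exact h2 (hvT h1)
        · apply hv
          refine Or.inr ⟨u, hu, ?_, h⟩
          rw [Finset.mem_union]
          rintro (h1 | h1)
          · exact huS h1
          · exact t4 ⟨u, h1, h⟩
      have hgood := hI.good v hnb
      have hvtok : ∀ w ∈ PZ, v ∈ inc (D.g w) → v = D.τ w := by
        intro w hw h
        rcases (mg w (hPZT w hw) v).1 h with h4 | h4 | h4
        · rw [h4] at t1
          exact absurd hw t1
        · exact absurd ⟨w, hw, h4⟩ hnσ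
        · exact h4
      have hb : ∃ b : Fin 3, b ≠ 0 ∧ cnt inc c (opp b) v = 1 ∧
          ∀ w ∈ PZ, v = D.τ w → a w = b := by
        have hkey : ∀ w ∈ PZ, v = D.τ w → a w = if cnt inc c 1 v = 1 then 2 else 1 := by
          intro w hw h
          rw [h]
          apply a4 w
          · rintro ⟨w', hw', h1, -⟩
            exact t3 ⟨w', hw', by rw [h]; exact h1⟩
          · rintro ⟨u, hu, huS, h1⟩
            exact t4 ⟨u, (mH u).2 ⟨hu, huS, w, hw, h1⟩, by rw [h]; exact h1⟩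
        by_cases h1 : cnt inc c 1 v = 1
        · refine ⟨2, by decide, by rw [opp_two]; exact h1, ?_⟩
          intro w hw h
          rw [hkey w hw h, if_pos h1]
        · refine ⟨1, by decide, ?_, ?_⟩
          · rw [opp_one]
            rcases hgood with h | h
            · exact absurd h h1
            · exact h
          · intro w hw h
            rw [hkey w hw h, if_neg h1]
      obtain ⟨b, hb0, hb1, hb2⟩ := hb
      have hi0 : opp b ≠ 0 := opp_ne_zero hb0
      apply good_of v (opp b) hi0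
      obtain ⟨e, h1, h2, h4⟩ := cnt_eq_one.1 hb1
      rw [cnt_eq_one]
      refine ⟨e, h1, ?_, ?_⟩
      · rw [v4 e, h2]
        · rintro ⟨w, hw, h⟩
          rw [h, hcg w hw] at h2
          exact hi0 h2.symm
        · rintro ⟨w, hw, h⟩
          exact t3 ⟨w, hw, by rw [← h]; exact h1⟩
        · rintro ⟨u, hu, h⟩
          exact t4 ⟨u, hu, mem_VK.2 ⟨e, (hFl u hu).1 e h, h1⟩⟩
      · intro e' he' hce'
        rcases vinv e' _ hce' hi0 with
          ⟨w', hw', h5, h6⟩ | ⟨w', hw', h5, h6⟩ | ⟨u', hu', h5⟩ | ⟨h5, h6⟩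
        · subst h5
          rw [hb2 w' hw' (hvtok w' hw' he')] at h6
          exact absurd h6.symm (opp_ne_self hb0)
        · subst h5
          exact absurd ⟨w', hw', he'⟩ t3
        · exact absurd ⟨u', hu', mem_VK.2 ⟨e', (hFl u' hu').1 e' (by rw [h5]; exact hi0), he'⟩⟩ t4
        · exact h4 e' he' h5
  · -- zero
    intro v hv
    rw [dg_eq_zero]
    intro e he
    by_contra hne0
    rcases hv with ⟨h1, h2⟩ | ⟨u, hu, huS, hvu⟩
    · rw [Finset.mem_union, not_or] at h2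
      have hc0 := dg_eq_zero.1 (hI.zero v (Or.inl ⟨h1, h2.1⟩))
      rcases vinv e _ rfl hne0 with ⟨w, hw, h4, -⟩ | ⟨w, hw, h4, -⟩ | ⟨u, hu, h4⟩ | ⟨h4, -⟩
      · subst h4
        rcases (mg w (hPZT w hw) v).1 he with h5 | h5 | h5
        · rw [h5] at h2
          exact h2.2 hw
        · exact absurd (D.hT0 v h1) (by rw [h5]; exact hσ0 w (hPZT w hw))
        · exact absurd h1 (by rw [h5]; exact D.hτ w (hPZT w hw))
      · subst h4
        have h5 := (he2 _ (hPZZ w hw)).1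
        rw [hc0 _ he] at h5
        exact absurd h5 (by decide)
      · exact absurd (mem_VK.2 ⟨e, (hFl u hu).1 e (by rw [h4]; exact hne0), he⟩)
          (hTVK v h1 u ((mH u).1 hu).1)
      · rw [hc0 _ he] at h4
        exact hne0 h4.symm
    · rw [Finset.mem_union, not_or] at huS
      have hc0 := dg_eq_zero.1 (hI.zero v (Or.inr ⟨u, hu, huS.1, hvu⟩))
      have hvT' : v ∉ D.T := fun h => hTVK v h u hu hvu
      have hnσ : ¬ ∃ w ∈ PZ, v = D.σ w := by
        rintro ⟨w, hw, h⟩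
        rw [h] at hvu
        exact hZVK _ (hPZZ w hw) u hu hvu
      rcases vinv e _ rfl hne0 with ⟨w, hw, h4, -⟩ | ⟨w, hw, h4, -⟩ | ⟨u', hu', h4⟩ | ⟨h4, -⟩
      · subst h4
        have h5 := tok v hvT' hnσ w hw he
        exact huS.2 ((mH u).2 ⟨hu, huS.1, w, hw, by rw [← h5]; exact hvu⟩)
      · subst h4
        have h5 := (he2 _ (hPZZ w hw)).1
        rw [hc0 _ he] at h5
        exact absurd h5 (by decide)
      · have h5 : u = u' := hVKu u hu u' ((mH u').1 hu').1 v hvu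
          (mem_VK.2 ⟨e, (hFl u' hu').1 e (by rw [h4]; exact hne0), he⟩)
        rw [h5] at huS
        exact huS.2 hu'
      · rw [hc0 _ he] at h4
        exact hne0 h4.symm
  · -- tie
    intro w hwT hwP hd2 hnX hnK
    rw [Finset.mem_union, not_or] at hwP
    have hyT : D.σ w ∉ D.T := by
      intro h
      have := D.hT0 _ h
      omega
    have hnσ : ¬ ∃ w' ∈ PZ, D.σ w = D.σ w' := by
      rintro ⟨w', hw', h⟩
      have := D.hσ w hwT w' (hPZT w' hw') h
      rw [this] at hwP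
      exact hwP.2 hw'
    have hnotok : ∀ w' ∈ PZ, D.σ w ∉ inc (D.g w') := by
      intro w' hw' h
      exact hnothit _ hd2 hnX w' hw' (tok _ hyT hnσ w' hw' h).symm
    by_cases hyK : ∃ u ∈ H, D.σ w ∈ VK inc (D.K u)
    · obtain ⟨u, hu, hvu⟩ := hyK
      have hU := ((mH u).1 hu).1
      obtain ⟨f1, f2, f3, f4⟩ := hFl u hu
      have hkd : kd inc (D.K u) (D.σ w) = 2 := D.hK2 u hU _ hvu hd2
      have hx : D.σ w ≠ D.τ (d u) := fun h => hnothit _ hd2 hnX (d u) (hd u hu).1 h.symm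
      have hboth : ∀ i : Fin 3, i ≠ 0 → cnt inc (Fl u) i (D.σ w) = 1 →
          cnt inc c' i (D.σ w) = 1 := by
        intro i hi hci
        obtain ⟨e, h1, h2, h4⟩ := cnt_eq_one.1 hci
        rw [cnt_eq_one]
        refine ⟨e, h1, ?_, ?_⟩
        · rw [v3 u hu e (by rw [h2]; exact hi), h2]
        · intro e' he' hce'
          rcases vinv e' i hce' hi with
            ⟨w', hw', h5, -⟩ | ⟨w', hw', h5, -⟩ | ⟨u', hu', h5⟩ | ⟨h5, -⟩
          · subst h5
            exact absurd he' (hnotok w' hw')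
          · subst h5
            have h6 := (he2 _ (hPZZ w' hw')).1
            rw [hKc u hu _ hvu _ he'] at h6
            exact absurd h6 (by decide)
          · have h6 : u = u' := hVKu u hU u' ((mH u').1 hu').1 _ hvu
              (mem_VK.2 ⟨e', (hFl u' hu').1 e' (by rw [h5]; exact hi), he'⟩)
            rw [← h6] at h5
            exact h4 e' he' h5
          · rw [hKc u hu _ hvu _ he'] at h5
            exact absurd h5.symm hi
      have h5 := f3 _ hx hkd
      exact ⟨hboth 1 (by decide) h5.1, hboth 2 (by decide) h5.2⟩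
    · have htie := hI.tie w hwT hwP.1 hd2 hnX (by
        intro u hu huS h
        by_cases huH : u ∈ H
        · exact hyK ⟨u, huH, h⟩
        · exact hnK u hu (by rw [Finset.mem_union, not_or]; exact ⟨huS, huH⟩) h)
      have hne2 : ∀ w' ∈ PZ, D.σ w ∉ inc (e2 (D.σ w')) := by
        intro w' hw' h
        have h1 := ((he2 _ (hPZZ w' hw')).2.2 _ h (fun h' => hnσ ⟨w', hw', h'⟩)).1
        omega
      have hboth : ∀ i : Fin 3, i ≠ 0 → cnt inc c i (D.σ w) = 1 →
          cnt inc c' i (D.σ w) = 1 := by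
        intro i hi hci
        obtain ⟨e, h1, h2, h4⟩ := cnt_eq_one.1 hci
        rw [cnt_eq_one]
        refine ⟨e, h1, ?_, ?_⟩
        · rw [v4 e, h2]
          · rintro ⟨w', hw', h⟩
            rw [h, hcg w' hw'] at h2
            exact hi h2.symm
          · rintro ⟨w', hw', h⟩
            exact hne2 w' hw' (by rw [← h]; exact h1)
          · rintro ⟨u, hu, h⟩
            exact hyK ⟨u, hu, mem_VK.2 ⟨e, (hFl u hu).1 e h, h1⟩⟩
        · intro e' he' hce'
          rcases vinv e' i hce' hi with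
            ⟨w', hw', h5, -⟩ | ⟨w', hw', h5, -⟩ | ⟨u', hu', h5⟩ | ⟨h5, -⟩
          · subst h5
            exact absurd he' (hnotok w' hw')
          · subst h5
            exact absurd he' (hne2 w' hw')
          · exact absurd ⟨u', hu', mem_VK.2 ⟨e', (hFl u' hu').1 e'
              (by rw [h5]; exact hi), he'⟩⟩ hyK
          · exact h4 e' he' h5
      exact ⟨hboth 1 (by decide) htie.1, hboth 2 (by decide) htie.2⟩
  · intro w
    rw [Finset.mem_union, hP, mPZ]
    tauto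

end Pool.Agent.W912.CF3
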